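import Mathlib

namespace Pool.Agent.Results.MP_b7336c_co.PowerMod2

/-- The binary representation `(j)_2` of `j`, as a word over `{0,1}` with the most significant
digit first and no leading zeros. -/
def binWord (j : ℕ) : List ℕ := (Nat.digits 2 j).reverse

/-- The number of occurrences of the word `w` as a block of consecutive letters of `u`
(overlaps allowed): the number of starting positions `p` such that `w` is an initial segment of
`u` with its first `p` letters removed. -/
def occ (w u : List ℕ) : ℕ := ((Finset.range u.length).filter (fun p => w <+: u.drop p)).card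

/-- The matrix `M_n` of size `N = 2^(2^n)`; the index `i : Fin N` stands for the number `i + 1`,
so that the entry at `(i, j)` is the number of occurrences of `(j+1)_2` in `(i+1)_2`. -/
def M (n : ℕ) : Matrix (Fin (2 ^ 2 ^ n)) (Fin (2 ^ 2 ^ n)) ℤ :=
  fun i j => (occ (binWord (j + 1)) (binWord (i + 1)) : ℤ)

/-! ### Words -/

lemma binWord_ne_nil (j : ℕ) : binWord (j + 1) ≠ [] := by
  unfold binWord
  simp

lemma binWord_inj {i j : ℕ} (h : binWord i = binWord j) : i = j := by
  unfold binWord at h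
  have := List.reverse_injective h
  exact Nat.digits_inj_iff.mp this

lemma binWord_head (j : ℕ) : ∃ t, binWord (j + 1) = 1 :: t := by
  have h1 : Nat.digits 2 (j + 1) ≠ [] := by simp
  have h2 := Nat.getLast_digit_ne_zero 2 (Nat.succ_ne_zero j)
  have h3 : (Nat.digits 2 (j + 1)).getLast h1 < 2 :=
    Nat.digits_lt_base (by norm_num) (List.getLast_mem h1)
  have h4 : (Nat.digits 2 (j + 1)).getLast h1 = 1 := by
    have : (Nat.digits 2 (j + 1)).getLast h1 ≠ 0 := h2
    omega
  refine ⟨(Nat.digits 2 (j+1)).dropLast.reverse, ?_⟩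
  unfold binWord
  conv_lhs => rw [← List.dropLast_append_getLast h1, h4]
  simp

lemma binWord_two_pow (a : ℕ) : binWord (2 ^ a) = 1 :: List.replicate a 0 := by
  unfold binWord
  have : Nat.digits 2 (2 ^ a) = List.replicate a 0 ++ [1] := by
    have := Nat.digits_base_pow_mul (b := 2) (k := a) (m := 1) (by norm_num) (by norm_num)
    simpa using this
  rw [this]
  simp

lemma occ_pos_iff {w u : List ℕ} : occ w u ≠ 0 ↔ ∃ p < u.length, w <+: u.drop p := by
  unfold occ
  rw [Finset.card_ne_zero]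
  constructor
  · rintro ⟨p, hp⟩
    rw [Finset.mem_filter, Finset.mem_range] at hp
    exact ⟨p, hp⟩
  · rintro ⟨p, hp⟩
    exact ⟨p, by rw [Finset.mem_filter, Finset.mem_range]; exact hp⟩

lemma occ_self {w : List ℕ} (hw : w ≠ []) : occ w w = 1 := by
  unfold occ
  rw [Finset.card_eq_one]
  refine ⟨0, ?_⟩
  ext p
  rw [Finset.mem_filter, Finset.mem_range, Finset.mem_singleton]
  constructor
  · rintro ⟨hp, h⟩
    have := h.length_le
    rw [List.length_drop] at this
    omega
  · rintro rfl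
    exact ⟨List.length_pos_iff.mpr hw, by simp⟩

/-- length of the binary word -/
def len (i : ℕ) : ℕ := (binWord (i + 1)).length

lemma len_pos (i : ℕ) : 1 ≤ len i := List.length_pos_iff.mpr (binWord_ne_nil i)

lemma occ_len {i j : ℕ} (h : occ (binWord (j + 1)) (binWord (i + 1)) ≠ 0) (hij : i ≠ j) :
    len j < len i := by
  rw [occ_pos_iff] at h
  obtain ⟨p, hp, hpre⟩ := h
  have h1 := hpre.length_le
  rw [List.length_drop] at h1
  unfold len
  rcases Nat.eq_zero_or_pos p with rfl | hp0
  · rw [List.drop_zero] at hpre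
    rcases Nat.lt_or_ge (binWord (j+1)).length (binWord (i+1)).length with h2 | h2
    · exact h2
    · exfalso
      have := hpre.eq_of_length_le h2
      have := binWord_inj this
      omega
  · omega

lemma len_le_of_lt {K i : ℕ} (h : i + 1 ≤ 2 ^ K) : len i ≤ K + 1 := by
  unfold len binWord
  rw [List.length_reverse, Nat.length_digits 2 (i+1) (by norm_num) (by omega)]
  have : Nat.log 2 (i+1) ≤ Nat.log 2 (2^K) := Nat.log_mono_right h
  rw [Nat.log_pow (by norm_num)] at this
  omega

lemma eq_of_len {K i : ℕ} (h : i + 1 ≤ 2 ^ K) (hl : K + 1 ≤ len i) : i + 1 = 2 ^ K := by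
  unfold len binWord at hl
  rw [List.length_reverse, Nat.length_digits 2 (i+1) (by norm_num) (by omega)] at hl
  have h1 : K ≤ Nat.log 2 (i+1) := by omega
  have h2 : 2 ^ K ≤ i + 1 := by
    calc 2 ^ K ≤ 2 ^ Nat.log 2 (i+1) := Nat.pow_le_pow_right (by norm_num) h1
      _ ≤ i + 1 := Nat.pow_log_le_self 2 (by omega)
  omega

lemma len_two_pow {a i : ℕ} (h : i + 1 = 2 ^ a) : len i = a + 1 := by
  unfold len
  rw [h, binWord_two_pow]
  simp

/-- A nonempty word starting with `1` occurring in `1 0^a` is `1 0^b`. -/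
lemma occ_two_pow {a j : ℕ} (h : occ (binWord (j + 1)) (binWord (2 ^ a)) ≠ 0) :
    binWord (j + 1) <+: binWord (2 ^ a) := by
  rw [occ_pos_iff] at h
  obtain ⟨p, hp, hpre⟩ := h
  rcases Nat.eq_zero_or_pos p with rfl | hp0
  · simpa using hpre
  · exfalso
    obtain ⟨t, ht⟩ := binWord_head j
    rw [ht, binWord_two_pow] at hpre
    obtain ⟨q, rfl⟩ : ∃ q, p = q + 1 := ⟨p - 1, by omega⟩
    rw [List.drop_succ_cons, List.drop_replicate] at hpre
    have : (1 : ℕ) ∈ List.replicate (a - q) 0 := hpre.subset (by simp)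
    have := List.eq_of_mem_replicate this
    omega

lemma occ_two_pow_len {a j : ℕ} (h : occ (binWord (j + 1)) (binWord (2 ^ (a + 1))) ≠ 0)
    (hl : len j = a + 1) : j + 1 = 2 ^ a := by
  have h1 := occ_two_pow h
  have h2 : binWord (2 ^ a) <+: binWord (2 ^ (a + 1)) := by
    rw [binWord_two_pow, binWord_two_pow, List.replicate_succ']
    exact ⟨[0], by simp⟩
  have h3 : (binWord (j+1)).length = (binWord (2 ^ a)).length := by
    rw [binWord_two_pow]
    unfold len at hl
    rw [hl]; simp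
  have h4 : binWord (j + 1) = binWord (2 ^ a) :=
    (List.prefix_of_prefix_length_le h1 h2 h3.le).eq_of_length h3
  exact binWord_inj h4

lemma occ_two_pow_one (a : ℕ) : occ (binWord (2 ^ a)) (binWord (2 ^ (a + 1))) = 1 := by
  unfold occ
  rw [Finset.card_eq_one]
  refine ⟨0, ?_⟩
  ext p
  rw [Finset.mem_filter, Finset.mem_range, Finset.mem_singleton]
  constructor
  · rintro ⟨hp, hpre⟩
    by_contra hp0
    obtain ⟨q, rfl⟩ : ∃ q, p = q + 1 := ⟨p - 1, by omega⟩
    rw [binWord_two_pow, binWord_two_pow, List.drop_succ_cons, List.drop_replicate] at hpre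
    have : (1 : ℕ) ∈ List.replicate (a + 1 - q) 0 := hpre.subset (by simp)
    have := List.eq_of_mem_replicate this
    omega
  · rintro rfl
    rw [binWord_two_pow, binWord_two_pow]
    refine ⟨by simp, ?_⟩
    rw [List.drop_zero, List.replicate_succ']
    exact ⟨[0], by simp⟩

/-! ### Matrices modulo 2 -/

/-- reduction mod 2 minus the identity -/
def X (n : ℕ) : Matrix (Fin (2 ^ 2 ^ n)) (Fin (2 ^ 2 ^ n)) (ZMod 2) :=
  (M n).map (Int.cast : ℤ → ZMod 2) - 1

lemma X_self (n : ℕ) (i : Fin (2 ^ 2 ^ n)) : X n i i = 0 := by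
  simp [X, M, Matrix.sub_apply, Matrix.map_apply, occ_self (binWord_ne_nil i)]

lemma X_ne (n : ℕ) {i j : Fin (2 ^ 2 ^ n)} (h : i ≠ j) :
    X n i j = (occ (binWord (j + 1)) (binWord (i + 1)) : ZMod 2) := by
  simp [X, M, Matrix.sub_apply, Matrix.map_apply, Matrix.one_apply_ne h]

lemma X_len (n : ℕ) {i j : Fin (2 ^ 2 ^ n)} (h : X n i j ≠ 0) : len j < len i := by
  rcases eq_or_ne i j with rfl | hij
  · exact absurd (X_self n i) h
  · rw [X_ne n hij] at h
    apply occ_len _ (fun h' => hij (Fin.ext h'))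
    intro h0
    rw [h0] at h
    exact h (by simp)

lemma Xpow_len (n k : ℕ) {i j : Fin (2 ^ 2 ^ n)} (h : (X n ^ k) i j ≠ 0) :
    len j + k ≤ len i := by
  induction k generalizing i with
  | zero =>
    rw [pow_zero] at h
    rcases eq_or_ne i j with rfl | hij
    · simp
    · exact absurd (Matrix.one_apply_ne hij) h
  | succ k ih =>
    rw [pow_succ', Matrix.mul_apply] at h
    obtain ⟨l, -, hl⟩ := Finset.exists_ne_zero_of_sum_ne_zero h
    have h1 : X n i l ≠ 0 := left_ne_zero_of_mul hl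
    have h2 : (X n ^ k) l j ≠ 0 := right_ne_zero_of_mul hl
    have h3 := X_len n h1
    have h4 := ih h2
    omega

lemma pos (n : ℕ) : 0 < 2 ^ 2 ^ n := by positivity

lemma Xpow_entry (n k : ℕ) {i : Fin (2 ^ 2 ^ n)} (hi : (i : ℕ) + 1 = 2 ^ k) :
    (X n ^ k) i ⟨0, pos n⟩ = 1 := by
  induction k generalizing i with
  | zero =>
    have : i = ⟨0, pos n⟩ := Fin.ext (by simpa using hi)
    rw [pow_zero, this, Matrix.one_apply_eq]
  | succ k ih =>
    rw [pow_succ', Matrix.mul_apply]
    have hlt : 2 ^ k - 1 < 2 ^ 2 ^ n := by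
      have h1 : 2 ^ (k+1) ≤ 2 ^ 2 ^ n := by rw [← hi]; exact i.2
      have h2 : 2 ^ k < 2 ^ (k+1) := Nat.pow_lt_pow_right (by norm_num) (by omega)
      omega
    have hk1 : 2 ^ k - 1 + 1 = 2 ^ k := Nat.sub_add_cancel Nat.one_le_two_pow
    rw [Finset.sum_eq_single (⟨2 ^ k - 1, hlt⟩ : Fin (2 ^ 2 ^ n))]
    · rw [ih (by exact hk1), mul_one, X_ne]
      · simp only [hk1, hi, occ_two_pow_one]
        simp
      · intro h
        have := congrArg Fin.val h
        simp only at this
        have h2 : 2 ^ k < 2 ^ (k+1) := Nat.pow_lt_pow_right (by norm_num) (by omega)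
        omega
    · intro j _ hj
      by_contra hne
      have h1 : X n i j ≠ 0 := left_ne_zero_of_mul hne
      have h2 : (X n ^ k) j ⟨0, pos n⟩ ≠ 0 := right_ne_zero_of_mul hne
      have h3 := X_len n h1
      have h4 := Xpow_len n k h2
      have h5 : len i = k + 1 + 1 := len_two_pow hi
      have h6 := len_pos ((⟨0, pos n⟩ : Fin (2 ^ 2 ^ n)) : ℕ)
      have hij : i ≠ j := by rintro rfl; exact h1 (X_self n i)
      rw [X_ne n hij] at h1
      have h7 : occ (binWord (j + 1)) (binWord (2 ^ (k + 1))) ≠ 0 := by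
        intro h0
        rw [hi, h0] at h1
        exact h1 (by simp)
      have h8 := occ_two_pow_len h7 (by omega)
      apply hj
      apply Fin.ext
      simp only
      omega
    · intro h
      exact absurd (Finset.mem_univ _) h

lemma Xpow_eq (n : ℕ) (i j : Fin (2 ^ 2 ^ n)) :
    (X n ^ (2 ^ n)) i j = if (i : ℕ) + 1 = 2 ^ 2 ^ n ∧ (j : ℕ) = 0 then 1 else 0 := by
  split_ifs with h
  · have : j = ⟨0, pos n⟩ := Fin.ext h.2
    rw [this]
    exact Xpow_entry n (2 ^ n) h.1
  · by_contra hne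
    have h1 := Xpow_len n (2 ^ n) hne
    have h2 := len_pos j
    have h3 : (i : ℕ) + 1 ≤ 2 ^ 2 ^ n := i.2
    have h4 := len_le_of_lt h3
    apply h
    refine ⟨eq_of_len h3 (by omega), ?_⟩
    have h5 : len (j : ℕ) = 1 := by omega
    obtain ⟨t, ht⟩ := binWord_head j
    have h6 : t = [] := by
      unfold len at h5
      rw [ht] at h5
      simpa using h5
    rw [h6] at ht
    have h7 : binWord (j + 1) = binWord (2 ^ 0) := by
      rw [ht, binWord_two_pow]; simp
    have := binWord_inj h7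
    omega

/-- For every `n ≥ 1` (indeed for every `n`), `M_n^(2^n) ≡ I + E_{N,1} (mod 2)`, `N = 2^(2^n)`. -/
theorem result (n : ℕ) (i j : Fin (2 ^ 2 ^ n)) :
    ((M n) ^ (2 ^ n)) i j ≡
      (if i = j then 1 else 0) + (if (i : ℕ) + 1 = 2 ^ 2 ^ n ∧ (j : ℕ) + 1 = 1 then 1 else 0)
      [ZMOD 2] := by
  apply (ZMod.intCast_eq_intCast_iff _ _ 2).mp
  have h1 : (((M n) ^ (2 ^ n)) i j : ZMod 2) = (((M n).map (Int.cast : ℤ → ZMod 2)) ^ (2 ^ n)) i j := by
    have := Matrix.map_pow (M n) (Int.castRingHom (ZMod 2)) (2 ^ n)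
    have h2 := congrFun (congrFun this i) j
    rw [Matrix.map_apply] at h2
    exact h2
  have h2 : (M n).map (Int.cast : ℤ → ZMod 2) = 1 + X n := by
    unfold X; abel
  rw [h1, h2]
  have : Nonempty (Fin (2 ^ 2 ^ n)) := ⟨⟨0, pos n⟩⟩
  have : CharP (Matrix (Fin (2 ^ 2 ^ n)) (Fin (2 ^ 2 ^ n)) (ZMod 2)) 2 := inferInstance
  have h3 : (1 + X n) ^ (2 ^ n) = 1 + X n ^ (2 ^ n) := by
    have := add_pow_char_pow_of_commute (p := 2) (n := n) (Commute.one_left (X n))
    rw [this, one_pow]
  rw [h3, Matrix.add_apply, Xpow_eq, Matrix.one_apply]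
  push_cast
  simp

end Pool.Agent.Results.MP_b7336c_co.PowerMod2
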